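import Mathlib

/-!
One-sided chaining: a lower bound of the increments of a function of one variable which starts
from almost every point, and the consequences for its derivative.
-/

set_option autoImplicit false

open MeasureTheory Set Filter Topology

namespace Pool.Agent.E8helper97.EE

theorem sub_int {a b : ℝ} {f : ℝ → ℝ} (h : IntervalIntegrable f volume a b) {x y : ℝ} (ha : a ≤ x)
    (hab : x ≤ y) (hb : y ≤ b) : IntervalIntegrable f volume x y := by
  refine h.mono_set ?_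
  rw [uIcc_of_le hab, uIcc_of_le (ha.trans (hab.trans hb))]
  exact Icc_subset_Icc ha hb

theorem int_mono_set {T₀ T : ℝ} {f : ℝ → ℝ} (h : IntervalIntegrable f volume T₀ T)
    (hf : ∀ t, 0 ≤ f t)
    {a b c d : ℝ} (hc : T₀ ≤ c) (hca : c ≤ a) (hab : a ≤ b) (hbd : b ≤ d) (hd : d ≤ T) :
    ∫ r in a..b, f r ≤ ∫ r in c..d, f r :=
  intervalIntegral.integral_mono_interval hca hab hbd (Eventually.of_forall hf)
    (sub_int h hc (hca.trans (hab.trans hbd)) hd)

/-- a good point of a set of positive measure at which the function is at most its average -/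
theorem exists_good' {A good : Set ℝ} {ψ : ℝ → ℝ} (hgood : ∀ᵐ t : ℝ, t ∈ A → t ∈ good)
    (h0 : volume A ≠ 0) (h1 : volume A ≠ ⊤) (hint : IntegrableOn ψ A) :
    ∃ σ ∈ A, σ ∈ good ∧ (volume A).toReal * ψ σ ≤ ∫ r in A, ψ r := by
  have hpos := measure_le_setAverage_pos h0 h1 hint
  obtain ⟨σ, ⟨hσ, hle⟩, hσ2⟩ : ∃ σ ∈ {x' ∈ A | ψ x' ≤ ⨍ a in A, ψ a}, (σ ∈ A → σ ∈ good) := by
    by_contra hcon
    push Not at hcon
    refine hpos.ne' (measure_mono_null (t := {t | ¬ (t ∈ A → t ∈ good)}) ?_ hgood)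
    intro σ hσ
    have := hcon σ hσ
    intro h2
    exact this.2 (h2 this.1)
  refine ⟨σ, hσ, hσ2 hσ, ?_⟩
  rw [setAverage_eq, Measure.real, smul_eq_mul] at hle
  have h3 : 0 < (volume A).toReal := ENNReal.toReal_pos h0 h1
  calc (volume A).toReal * ψ σ ≤ (volume A).toReal * ((volume A).toReal⁻¹ * ∫ r in A, ψ r) := by
        gcongr
    _ = _ := by rw [← mul_assoc, mul_inv_cancel₀ h3.ne', one_mul]

/-- a good point at which the function is at most the average -/
theorem exists_good {a b : ℝ} {ψ : ℝ → ℝ} {good : Set ℝ} (hgood : ∀ᵐ t : ℝ, t ∈ Ioo a b → t ∈ good)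
    (hψ : IntervalIntegrable ψ volume a b) {x y : ℝ} (hx : a ≤ x) (hxy : x < y) (hy : y ≤ b) :
    ∃ σ ∈ Ioo x y, σ ∈ good ∧ (y - x) * ψ σ ≤ ∫ r in x..y, ψ r := by
  have hT : a ≤ b := by linarith
  have hint : IntegrableOn ψ (Ioo x y) := by
    rw [intervalIntegrable_iff_integrableOn_Ioc_of_le hT] at hψ
    exact hψ.mono_set (Ioo_subset_Ioc_self.trans (Ioc_subset_Ioc hx hy))
  have hvol : volume (Ioo x y) = ENNReal.ofReal (y - x) := Real.volume_Ioo
  have h0 : volume (Ioo x y) ≠ 0 := by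
    rw [hvol]
    simp only [ne_eq, ENNReal.ofReal_eq_zero, not_le]
    linarith
  have h1 : volume (Ioo x y) ≠ ⊤ := by rw [hvol]; exact ENNReal.ofReal_ne_top
  obtain ⟨σ, k1, k2, k3⟩ := exists_good' (good := good) (by
    filter_upwards [hgood] with t ht h2
    exact ht ⟨hx.trans_lt h2.1, h2.2.trans_le hy⟩) h0 h1 hint
  refine ⟨σ, k1, k2, ?_⟩
  rw [hvol, ENNReal.toReal_ofReal (by linarith)] at k3
  rwa [intervalIntegral.integral_of_le hxy.le, integral_Ioc_eq_integral_Ioo]

/-- **Chaining**: if the increments of `E` starting from almost every point are bounded below, and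
`E` is lower semicontinuous from the right, then all increments are bounded below. -/
theorem low_bound {a b : ℝ} {E ψ g : ℝ → ℝ} {good : Set ℝ}
    (gd : ∀ᵐ t : ℝ, t ∈ Ioo a b → t ∈ good) (ψ0 : ∀ t, 0 ≤ ψ t) (g0 : ∀ t, 0 ≤ g t)
    (ψi : IntervalIntegrable ψ volume a b) (gi : IntervalIntegrable g volume a b)
    (h1 : ∀ s ∈ good, ∀ t, a ≤ s → s ≤ t → t ≤ b →
      E s - E t ≤ (∫ r in s..t, g r) + (t - s) * ψ s)
    (h2 : ∀ s ∈ Icc a b, ∃ R : ℝ → ℝ, Tendsto R (𝓝[Icc a b] s) (𝓝 0) ∧ ∀ t ∈ Icc a b, s ≤ t →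
      E s - E t ≤ R t) {s t : ℝ}
    (hs : a ≤ s) (hst : s ≤ t) (ht : t ≤ b) :
    E s - E t ≤ ∫ r in s..t, (g r + 4 * ψ r) := by
  rcases eq_or_lt_of_le hst with h0 | h0
  · rw [h0]; simp
  have iψ := sub_int ψi hs hst ht
  have ig := sub_int gi hs hst ht
  set L := t - s with hL
  have hL0 : 0 < L := by linarith
  set h : ℕ → ℝ := fun k => L / 2 ^ k with hh
  have hh0 : ∀ k, 0 < h k := fun k => by simp only [hh]; positivity
  have hh1 : ∀ k, h (k + 1) = h k / 2 := fun k => by simp only [hh]; rw [pow_succ]; field_simp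
  have hhL : ∀ k, h k ≤ L := fun k => by
    simp only [hh]
    exact div_le_self hL0.le (one_le_pow₀ (by norm_num))
  have hlim : Tendsto h atTop (𝓝 0) := by
    have h1 : Tendsto (fun k : ℕ => L * (1 / 2 : ℝ) ^ k) atTop (𝓝 (L * 0)) :=
      (tendsto_pow_atTop_nhds_zero_of_lt_one (by norm_num) (by norm_num)).const_mul L
    rw [mul_zero] at h1
    refine h1.congr fun k => ?_
    simp only [hh]
    rw [one_div, inv_pow]
    rfl
  -- the points
  have hex : ∀ k : ℕ, ∃ σ ∈ Ioo (s + h (k + 1)) (s + h k), σ ∈ good ∧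
      h k * ψ σ ≤ 2 * ∫ r in (s + h (k + 1))..(s + h k), ψ r := by
    intro k
    obtain ⟨σ, h1, h2, h3⟩ := exists_good gd ψi (x := s + h (k + 1)) (y := s + h k)
      (by linarith [hh0 (k + 1)]) (by rw [hh1]; linarith [hh0 k]) (by linarith [hhL k])
    refine ⟨σ, h1, h2, ?_⟩
    have e1 : s + h k - (s + h (k + 1)) = h k / 2 := by rw [hh1]; ring
    rw [e1] at h3
    linarith
  choose σ hσI hσg hσψ using hex
  have hσ0 : ∀ k, a ≤ σ k := fun k => by linarith [(hσI k).1, hh0 (k + 1)]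
  have hσT : ∀ k, σ k ≤ b := fun k => by linarith [(hσI k).2, hhL k]
  have hanti : ∀ k, σ (k + 1) ≤ σ k := fun k => ((hσI (k + 1)).2.trans (hσI k).1).le
  have hσs : ∀ k, s < σ k := fun k => by linarith [(hσI k).1, hh0 (k + 1)]
  have eh0 : s + h 0 = t := by simp only [hh]; rw [pow_zero, div_one, hL]; ring
  have hI0 : ∀ k, 0 ≤ ∫ r in (s + h (k + 1))..(s + h k), ψ r := fun k =>
    intervalIntegral.integral_nonneg (by rw [hh1]; linarith [hh0 k]) fun r _ => ψ0 r
  have hψint : ∀ k l : ℕ, IntervalIntegrable ψ volume (s + h k) (s + h l) := fun k l => by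
    refine ψi.mono_set ?_
    rw [uIcc_of_le (hs.trans (hst.trans ht))]
    intro r hr
    have h5 := hr.1
    have h6 := hr.2
    have h7 : a ≤ min (s + h k) (s + h l) := le_min (by linarith [hh0 k]) (by linarith [hh0 l])
    have h8 : max (s + h k) (s + h l) ≤ b := max_le (by linarith [hhL k]) (by linarith [hhL l])
    exact ⟨h7.trans h5, h6.trans h8⟩
  have hgint : ∀ k : ℕ, IntervalIntegrable g volume (σ k) t := fun k =>
    sub_int gi (hσ0 k) (by linarith [(hσI k).2, hhL k]) ht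
  have hgint2 : ∀ k l : ℕ, IntervalIntegrable g volume (σ k) (σ l) := fun k l => by
    refine gi.mono_set ?_
    rw [uIcc_of_le (hs.trans (hst.trans ht))]
    intro r hr
    exact ⟨(le_min (hσ0 k) (hσ0 l)).trans hr.1, hr.2.trans (max_le (hσT k) (hσT l))⟩
  -- the chain
  have hchain : ∀ n : ℕ, E (σ n) - E t ≤ (∫ r in (σ n)..t, g r)
      + 4 * ∫ r in (s + h (n + 1))..t, ψ r := by
    intro n
    induction n with
    | zero =>
      have h3 := h1 (σ 0) (hσg 0) t (hσ0 0) (by linarith [(hσI 0).2]) ht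
      have h4 : t - σ 0 ≤ h 0 := by linarith [hσs 0]
      have h5 : (t - σ 0) * ψ (σ 0) ≤ h 0 * ψ (σ 0) := mul_le_mul_of_nonneg_right h4 (ψ0 _)
      have h6 := hσψ 0
      have h7 := hI0 0
      rw [eh0] at h6 h7
      have e5 : s + h (0 + 1) = s + h 1 := rfl
      rw [e5] at h6 h7 ⊢
      linarith
    | succ n ih =>
      have h3 := h1 (σ (n + 1)) (hσg _) (σ n) (hσ0 _) (hanti n) (hσT n)
      have h4 : σ n - σ (n + 1) ≤ 2 * h (n + 1) := by
        have := (hσI n).2
        have := hσs (n + 1)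
        have h9 : h n = 2 * h (n + 1) := by rw [hh1]; ring
        linarith
      have h5 : (σ n - σ (n + 1)) * ψ (σ (n + 1)) ≤ 2 * h (n + 1) * ψ (σ (n + 1)) :=
        mul_le_mul_of_nonneg_right h4 (ψ0 _)
      have h8 := hσψ (n + 1)
      have e1 := intervalIntegral.integral_add_adjacent_intervals (hgint2 (n + 1) n) (hgint n)
      have hψt : IntervalIntegrable ψ volume (s + h (n + 1)) t := by
        have := hψint (n + 1) 0
        rwa [eh0] at this
      have e2 := intervalIntegral.integral_add_adjacent_intervals (hψint (n + 2) (n + 1)) hψt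
      have e5 : s + h (n + 1 + 1) = s + h (n + 2) := rfl
      rw [e5] at h8 ⊢
      rw [← e1, ← e2]
      linarith
  -- the limit
  obtain ⟨R, hR, hR2⟩ := h2 s ⟨hs, hst.trans ht⟩
  have hbd : ∀ n, E s - E t ≤ (∫ r in s..t, (g r + 4 * ψ r)) + R (σ n) := by
    intro n
    have b1 := hchain n
    have b2 := hR2 (σ n) ⟨hσ0 n, hσT n⟩ (hσs n).le
    have b3 : ∫ r in (σ n)..t, g r ≤ ∫ r in s..t, g r :=
      int_mono_set gi g0 hs (hσs n).le (by linarith [(hσI n).2, hhL n]) le_rfl ht
    have b4 : ∫ r in (s + h (n + 1))..t, ψ r ≤ ∫ r in s..t, ψ r :=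
      int_mono_set ψi ψ0 hs (by linarith [hh0 (n + 1)]) (by linarith [hhL (n + 1)]) le_rfl ht
    rw [intervalIntegral.integral_add ig (iψ.const_mul 4), intervalIntegral.integral_const_mul]
    linarith
  have hRl : Tendsto (fun n => R (σ n)) atTop (𝓝 0) := by
    refine hR.comp (tendsto_nhdsWithin_iff.2 ⟨?_, Eventually.of_forall fun n =>
      ⟨hσ0 n, hσT n⟩⟩)
    refine tendsto_of_tendsto_of_tendsto_of_le_of_le tendsto_const_nhds
      (h := fun n => s + h n) ?_ (fun n => (hσs n).le) (fun n => (hσI n).2.le)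
    have := hlim.const_add s
    rwa [add_zero] at this
  have htot : Tendsto (fun n => (∫ r in s..t, (g r + 4 * ψ r)) + R (σ n)) atTop
      (𝓝 ((∫ r in s..t, (g r + 4 * ψ r)) + 0)) := hRl.const_add _
  have := ge_of_tendsto' htot hbd
  linarith

/-- If the increments of `F` are bounded below by an integrable function then they are bounded
below by the integral of the derivative. -/
theorem incr_ge {a b : ℝ} (hT : a ≤ b) {F k q : ℝ → ℝ} (hk : IntervalIntegrable k volume a b)
    (hq : IntervalIntegrable q volume a b)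
    (hF : ∀ s t, a ≤ s → s ≤ t → t ≤ b → F s - F t ≤ ∫ r in s..t, k r)
    (hd : ∀ᵐ x : ℝ, x ∈ Ioo a b → ∀ d, HasDerivAt F d x → d = q x) :
    ∀ s t, a ≤ s → s ≤ t → t ≤ b → ∫ r in s..t, q r ≤ F t - F s := by
  intro s t hs hst ht
  set K : ℝ → ℝ := fun x => ∫ r in a..x, k r with hK
  set Φ : ℝ → ℝ := fun x => F x + K x with hΦ
  have hKsub : ∀ x y, a ≤ x → x ≤ y → y ≤ b → K y - K x = ∫ r in x..y, k r := by
    intro x y hx hxy hy
    exact intervalIntegral.integral_interval_sub_left (sub_int hk le_rfl (hx.trans hxy) hy)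
      (sub_int hk le_rfl hx (hxy.trans hy))
  have hmono : MonotoneOn Φ (Icc a b) := by
    intro x hx y hy hxy
    have h1 := hF x y hx.1 hxy hy.2
    have h2 := hKsub x y hx.1 hxy hy.2
    simp only [hΦ]
    linarith
  have hmono' : MonotoneOn Φ (uIcc s t) := by
    rw [uIcc_of_le hst]
    exact hmono.mono (Icc_subset_Icc hs ht)
  have hKd := hk.ae_hasDerivAt_integral
  have hΦd := hmono.ae_differentiableWithinAt_of_mem
  have hae : ∀ᵐ x : ℝ, x ∈ uIoc s t → deriv Φ x = q x + k x := by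
    have hTne : ∀ᵐ x : ℝ, x ≠ b := by simp [ae_iff, measure_singleton]
    filter_upwards [hKd, hΦd, hd, hTne] with x h1 h2 h3 h4 hx
    rw [uIoc_of_le hst] at hx
    have hxI : x ∈ Ioo a b := ⟨hs.trans_lt hx.1, lt_of_le_of_ne (hx.2.trans ht) h4⟩
    have hxC : x ∈ Icc a b := Ioo_subset_Icc_self hxI
    have hK' : HasDerivAt K (k x) x := by
      refine h1 ?_ a ?_
      · rw [uIcc_of_le hT]; exact hxC
      · rw [uIcc_of_le hT]; exact ⟨le_rfl, hT⟩
    have hΦ' : HasDerivAt Φ (deriv Φ x) x :=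
      ((h2 hxC).differentiableAt (Icc_mem_nhds hxI.1 hxI.2)).hasDerivAt
    have hF' : HasDerivAt F (deriv Φ x - k x) x := by
      have := hΦ'.sub hK'
      refine this.congr_of_eventuallyEq (Eventually.of_forall fun y => ?_)
      simp [hΦ]
    have := h3 hxI _ hF'
    linarith
  have h1 := hmono'.intervalIntegral_deriv_mem_uIcc
  have hst' : Φ s ≤ Φ t := hmono ⟨hs, hst.trans ht⟩ ⟨hs.trans hst, ht⟩ hst
  rw [uIcc_of_le (by linarith)] at h1
  have h2 : ∫ x in s..t, deriv Φ x = ∫ x in s..t, (q x + k x) :=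
    intervalIntegral.integral_congr_ae hae
  have iq := sub_int hq hs hst ht
  have ik := sub_int hk hs hst ht
  rw [intervalIntegral.integral_add iq ik] at h2
  have h3 := hKsub s t hs hst ht
  have h4 := h1.2
  rw [h2] at h4
  simp only [hΦ] at h4
  linarith

/-- **Points with a small tail ratio in a set of positive left lower density.** -/
theorem exists_tail {x δ₀ c : ℝ} (hδ₀ : 0 < δ₀) (hc : 0 < c) {A good : Set ℝ}
    {w : ℝ → ℝ} (hw1 : ∀ t, 1 ≤ w t)
    (hw : IntegrableOn w (Ioo (x - δ₀) x))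
    (hgood : ∀ᵐ t : ℝ, t ∈ A ∩ Ioo (x - δ₀) x → t ∈ good)
    (hdens : ∀ h ∈ Ioo 0 δ₀, c * h ≤ (volume (A ∩ Ioo (x - h) x)).toReal) :
    ∃ C : ℝ, 0 < C ∧ ∀ η > 0, ∃ s ∈ A ∩ Ioo (x - η) x, s ∈ good ∧
      (x - s) * w s ≤ C * ∫ r in s..x, w r := by
  -- the ratio
  have hc1 : c ≤ 1 := by
    have h1 := hdens (δ₀ / 2) ⟨by linarith, by linarith⟩
    have h2 : (volume (A ∩ Ioo (x - δ₀ / 2) x)).toReal ≤ δ₀ / 2 := by
      have h3 : volume (A ∩ Ioo (x - δ₀ / 2) x) ≤ ENNReal.ofReal (δ₀ / 2) := by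
        refine (measure_mono inter_subset_right).trans ?_
        rw [Real.volume_Ioo]
        exact ENNReal.ofReal_le_ofReal (by linarith)
      exact ENNReal.toReal_le_of_le_ofReal (by linarith) h3
    by_contra h4
    push Not at h4
    have : δ₀ / 2 < c * (δ₀ / 2) := by
      have : 0 < δ₀ / 2 := by linarith
      nlinarith
    linarith
  set d := c / 2 with hd
  have hd0 : 0 < d := by positivity
  have hd1 : d < 1 := by linarith
  have hint : IntervalIntegrable w volume (x - δ₀) x := by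
    rw [intervalIntegrable_iff_integrableOn_Ioo_of_le (by linarith)]
    exact hw
  have hw0 : ∀ t, 0 ≤ w t := fun t => zero_le_one.trans (hw1 t)
  set Γ : ℝ → ℝ := fun r => ∫ t in (x - r)..x, w t with hΓ
  have hΓ1 : ∀ r, 0 ≤ r → r ≤ δ₀ → r ≤ Γ r := by
    intro r hr hr2
    have h1 : ∫ t in (x - r)..x, (1 : ℝ) ≤ ∫ t in (x - r)..x, w t :=
      intervalIntegral.integral_mono_on (by linarith) intervalIntegrable_const
        (sub_int hint (by linarith) (by linarith) le_rfl) fun t _ => hw1 t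
    rw [intervalIntegral.integral_const, smul_eq_mul, mul_one] at h1
    simp only [hΓ]
    linarith
  refine ⟨2 / (c / 2) / d, by positivity, fun η hη => ?_⟩
  -- a starting scale
  set r₀ := min η (δ₀ / 2) with hr₀
  have hr0 : 0 < r₀ := lt_min hη (by linarith)
  have hr1 : r₀ ≤ η := min_le_left _ _
  have hr2 : r₀ ≤ δ₀ / 2 := min_le_right _ _
  -- a scale with a good ratio
  obtain ⟨k, hk⟩ : ∃ k : ℕ, Γ (r₀ * d ^ k) ≤ 2 / d * Γ (r₀ * d ^ (k + 1)) := by
    by_contra hcon
    push Not at hcon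
    have h1 : ∀ k : ℕ, Γ (r₀ * d ^ k) ≤ (d / 2) ^ k * Γ r₀ := by
      intro k
      induction k with
      | zero => simp
      | succ k ih =>
        have h2 := hcon k
        have h3 : Γ (r₀ * d ^ (k + 1)) ≤ d / 2 * Γ (r₀ * d ^ k) := by
          have : d / 2 * (2 / d * Γ (r₀ * d ^ (k + 1))) ≤ d / 2 * Γ (r₀ * d ^ k) := by gcongr
          have e1 : d / 2 * (2 / d * Γ (r₀ * d ^ (k + 1))) = Γ (r₀ * d ^ (k + 1)) := by
            field_simp
          rwa [e1] at this
        calc Γ (r₀ * d ^ (k + 1)) ≤ d / 2 * Γ (r₀ * d ^ k) := h3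
          _ ≤ d / 2 * ((d / 2) ^ k * Γ r₀) := by gcongr
          _ = _ := by ring
    have h2 : ∀ k : ℕ, r₀ ≤ (1 / 2) ^ k * Γ r₀ := by
      intro k
      have h3 := h1 k
      have h4 : r₀ * d ^ k ≤ Γ (r₀ * d ^ k) := by
        refine hΓ1 _ (by positivity) ?_
        have : r₀ * d ^ k ≤ r₀ * 1 := by
          gcongr
          exact pow_le_one₀ hd0.le hd1.le
        linarith
      have h5 : r₀ * d ^ k ≤ (d / 2) ^ k * Γ r₀ := h4.trans h3
      have e1 : (d / 2) ^ k * Γ r₀ = d ^ k * ((1 / 2) ^ k * Γ r₀) := by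
        rw [div_eq_mul_one_div, mul_pow]; ring
      rw [e1, mul_comm r₀] at h5
      exact le_of_mul_le_mul_left h5 (by positivity)
    have h3 : Tendsto (fun k : ℕ => (1 / 2 : ℝ) ^ k * Γ r₀) atTop (𝓝 (0 * Γ r₀)) :=
      (tendsto_pow_atTop_nhds_zero_of_lt_one (by norm_num) (by norm_num)).mul_const _
    have h4 := ge_of_tendsto' h3 h2
    linarith
  set h := r₀ * d ^ k with hh
  have hh0 : 0 < h := by positivity
  have hhr : h ≤ r₀ := by
    have : r₀ * d ^ k ≤ r₀ * 1 := by
      gcongr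
      exact pow_le_one₀ hd0.le hd1.le
    linarith
  have hh1 : r₀ * d ^ (k + 1) = d * h := by rw [hh]; ring
  rw [hh1] at hk
  -- the part of `A` in `(x - h, x - d h)`
  set A' := A ∩ Ioo (x - h) (x - d * h) with hA'
  have hvol : d * h ≤ (volume A').toReal := by
    have h1 := hdens h ⟨hh0, by linarith⟩
    have hsub : A ∩ Ioo (x - h) x ⊆ A' ∪ Ico (x - d * h) x := by
      rintro t ⟨ht1, ht2⟩
      by_cases h3 : t < x - d * h
      · exact Or.inl ⟨ht1, ht2.1, h3⟩
      · exact Or.inr ⟨not_lt.mp h3, ht2.2⟩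
    have h2 : volume (A ∩ Ioo (x - h) x) ≤ volume A' + ENNReal.ofReal (d * h) := by
      refine (measure_mono hsub).trans ((measure_union_le _ _).trans ?_)
      rw [Real.volume_Ico]
      gcongr
      linarith
    have hfin : volume A' ≠ ⊤ := by
      refine ne_top_of_le_ne_top ?_ (measure_mono inter_subset_right)
      rw [Real.volume_Ioo]
      exact ENNReal.ofReal_ne_top
    have h3 := ENNReal.toReal_mono (ENNReal.add_ne_top.2 ⟨hfin, ENNReal.ofReal_ne_top⟩) h2
    rw [ENNReal.toReal_add hfin ENNReal.ofReal_ne_top, ENNReal.toReal_ofReal (by positivity)] at h3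
    have h4 : c * h = 2 * (d * h) := by rw [hd]; ring
    linarith
  have hfin : volume A' ≠ ⊤ := by
    refine ne_top_of_le_ne_top ?_ (measure_mono inter_subset_right)
    rw [Real.volume_Ioo]
    exact ENNReal.ofReal_ne_top
  have hne : volume A' ≠ 0 := by
    intro h0
    rw [h0] at hvol
    simp only [ENNReal.toReal_zero] at hvol
    have : 0 < d * h := by positivity
    linarith
  have hdh : 0 < d * h := by positivity
  have hdhh : d * h < h := by nlinarith
  have hsub' : A' ⊆ Ioo (x - δ₀) x := fun t ht =>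
    ⟨by linarith [ht.2.1], by linarith [ht.2.2]⟩
  obtain ⟨s, hs1, hs2, hs3⟩ := exists_good' (good := good) (A := A') (ψ := w) (by
    filter_upwards [hgood] with t ht h2
    exact ht ⟨h2.1, hsub' h2⟩) hne hfin (hw.mono_set hsub')
  refine ⟨s, ⟨hs1.1, by linarith [hs1.2.1], by linarith [hs1.2.2]⟩, hs2, ?_⟩
  have h1 : ∫ r in A', w r ≤ Γ h := by
    simp only [hΓ]
    rw [intervalIntegral.integral_of_le (by linarith), integral_Ioc_eq_integral_Ioo]
    refine setIntegral_mono_set (hw.mono_set ?_) (Eventually.of_forall hw0) ?_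
    · exact Ioo_subset_Ioo_left (by linarith)
    · refine LE.le.eventuallyLE ?_
      exact fun t ht => ⟨ht.2.1, by linarith [ht.2.2]⟩
  have h2 : Γ (d * h) ≤ ∫ r in s..x, w r := by
    simp only [hΓ]
    refine int_mono_set hint hw0 ?_ hs1.2.2.le (by linarith) le_rfl le_rfl
    linarith [hs1.2.1]
  have h3 : (d * h) * w s ≤ (volume A').toReal * w s := by
    gcongr
    exact hw0 s
  have h4 : (x - s) * w s ≤ h * w s := by
    gcongr
    · exact hw0 s
    · linarith [hs1.2.1]
  have h5 : d * (h * w s) ≤ 2 / d * ∫ r in s..x, w r := by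
    calc d * (h * w s) = (d * h) * w s := by ring
      _ ≤ _ := h3
      _ ≤ _ := hs3
      _ ≤ Γ h := h1
      _ ≤ 2 / d * Γ (d * h) := hk
      _ ≤ _ := by gcongr
  have h6 : h * w s ≤ 2 / d / d * ∫ r in s..x, w r := by
    rw [div_div, ← mul_div_right_comm, le_div_iff₀ (by positivity)]
    have e1 : d * (2 / d * ∫ r in s..x, w r) = 2 * ∫ r in s..x, w r := by
      rw [← mul_assoc, mul_div_cancel₀ _ hd0.ne']
    have h7 : d * (d * (h * w s)) ≤ d * (2 / d * ∫ r in s..x, w r) := by gcongr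
    rw [e1] at h7
    linarith
  have e2 : 2 / (c / 2) / d = 2 / d / d := rfl
  rw [e2]
  linarith

end Pool.Agent.E8helper97.EE
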