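import Pool.Agent.E8helper97.EE.Chain

/-!
A bound of the increments by the integral of the derivative, when increments are controlled from a
set of starting times with positive left lower density at the points of a null set.
-/

set_option autoImplicit false

open MeasureTheory Set Filter Topology
open scoped ENNReal

namespace Pool.Agent.E8helper97.EE

/-- a weight which is infinitely larger than `K` near the points of a null set, of small
integral -/
theorem exists_weight {K : ℝ → ℝ} {S : Set ℝ} (hS : MeasurableSet S) (hK : IntegrableOn K S)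
    (hK0 : ∀ t, 0 ≤ K t) {N : Set ℝ} (hN : volume N = 0) {ε : ℝ} (hε : 0 < ε) :
    ∃ W : ℝ → ℝ, (∀ t, 0 ≤ W t) ∧ IntegrableOn W S ∧ (∫ t in S, W t) ≤ ε ∧
      ∀ x ∈ N, ∀ C : ℝ, ∃ δ > 0, ∀ᵐ t : ℝ, t ∈ S → t ∈ Ioo (x - δ) (x + δ) → C * K t ≤ W t := by
  set N' := toMeasurable volume N with hN'
  have hN'0 : volume N' = 0 := by rw [hN', measure_toMeasurable, hN]
  have hN'm : MeasurableSet N' := measurableSet_toMeasurable _ _
  set μ : Measure ℝ := (volume.restrict S).withDensity (fun t => ENNReal.ofReal (K t)) with hμ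
  have hKm : AEMeasurable (fun t => ENNReal.ofReal (K t)) (volume.restrict S) :=
    hK.aemeasurable.ennreal_ofReal
  have : IsFiniteMeasure μ := by
    refine isFiniteMeasure_withDensity ?_
    have h1 := hK.hasFiniteIntegral
    rw [hasFiniteIntegral_iff_ofReal (Eventually.of_forall hK0)] at h1
    exact h1.ne
  have hμN : μ N' = 0 := by
    have h1 : volume.restrict S N' = 0 := measure_mono_null (by exact subset_rfl)
      ((Measure.absolutelyContinuous_of_le Measure.restrict_le_self) hN'0)
    exact (withDensity_absolutelyContinuous _ _) h1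
  obtain ⟨w, hw1, hw2, hw3⟩ := exists_le_lowerSemicontinuous_lintegral_ge μ
    (N'.indicator fun _ => (⊤ : ℝ≥0∞)) (measurable_const.indicator hN'm)
    (ε := ENNReal.ofReal ε) (by simpa using hε)
  have hint0 : ∫⁻ x, N'.indicator (fun _ => (⊤ : ℝ≥0∞)) x ∂μ = 0 := by
    rw [lintegral_indicator hN'm, lintegral_const, Measure.restrict_apply_univ, hμN, mul_zero]
  rw [hint0, zero_add] at hw3
  have hwm : Measurable w := hw2.measurable
  have hint : ∫⁻ t, ENNReal.ofReal (K t) * w t ∂(volume.restrict S) ≤ ENNReal.ofReal ε := by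
    refine le_trans (le_of_eq ?_) hw3
    rw [hμ, lintegral_withDensity_eq_lintegral_mul₀ hKm hwm.aemeasurable]
    rfl
  have hfin : ∫⁻ t, ENNReal.ofReal (K t) * w t ∂(volume.restrict S) ≠ ⊤ :=
    ne_top_of_le_ne_top ENNReal.ofReal_ne_top hint
  have haem : AEMeasurable (fun t => ENNReal.ofReal (K t) * w t) (volume.restrict S) :=
    hKm.mul hwm.aemeasurable
  have hae := ae_lt_top' haem hfin
  refine ⟨fun t => (ENNReal.ofReal (K t) * w t).toReal, fun t => ENNReal.toReal_nonneg, ?_, ?_,
    ?_⟩
  · exact integrable_toReal_of_lintegral_ne_top haem hfin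
  · rw [integral_toReal haem hae]
    exact ENNReal.toReal_le_of_le_ofReal hε.le hint
  · intro x hx C
    have h1 : w x = ⊤ := by
      have := hw1 x
      rw [indicator_of_mem (subset_toMeasurable _ _ hx)] at this
      exact top_le_iff.1 this
    have h2 := hw2 x (ENNReal.ofReal |C|) (by
      show ENNReal.ofReal |C| < w x
      rw [h1]; exact ENNReal.ofReal_lt_top)
    rw [Metric.eventually_nhds_iff_ball] at h2
    obtain ⟨δ, hδ, h3⟩ := h2
    refine ⟨δ, hδ, ?_⟩
    rw [ae_restrict_iff' hS] at hae
    filter_upwards [hae] with t h4 h5 h6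
    have h7 : ENNReal.ofReal |C| < w t := h3 t (by
      rw [Real.ball_eq_Ioo]; exact h6)
    have h8 := h4 h5
    have h9 : ENNReal.ofReal (|C| * K t) ≤ ENNReal.ofReal (K t) * w t := by
      rw [ENNReal.ofReal_mul (abs_nonneg _), mul_comm]
      gcongr
    have h10 := ENNReal.toReal_mono h8.ne h9
    rw [ENNReal.toReal_ofReal (mul_nonneg (abs_nonneg _) (hK0 t))] at h10
    refine le_trans ?_ h10
    exact mul_le_mul_of_nonneg_right (le_abs_self _) (hK0 t)

/-- **Increments from a set of starting times.** Let `F` satisfy a lower bound of the increments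
starting from almost every time `s`, with an error `(t - s) ψ(s)`, where `ψ` is finite but not
necessarily integrable. Suppose that, outside a null set `N`, `ψ` is locally integrable, and that
`ψ` is integrable over a set `A` of positive left lower density at each point of `N`. Then the
increments of `F` are bounded below by the integral of its derivative. -/
theorem incr_ge_dense {T : ℝ} (hT : 0 < T) {F q k ψ : ℝ → ℝ} {N A good : Set ℝ}
    (hk0 : ∀ t, 0 ≤ k t) (hk : IntervalIntegrable k volume 0 T)
    (hq : IntervalIntegrable q volume 0 T) (hψ0 : ∀ t, 0 ≤ ψ t)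
    (hgd : ∀ᵐ t : ℝ, t ∈ Ioo 0 T → t ∈ good)
    (h1 : ∀ s ∈ good, ∀ t, 0 ≤ s → s ≤ t → t ≤ T →
      F s - F t ≤ (∫ r in s..t, k r) + (t - s) * ψ s)
    (h2 : ∀ s ∈ Icc 0 T, ∃ R : ℝ → ℝ, Tendsto R (𝓝[Icc 0 T] s) (𝓝 0) ∧ ∀ t ∈ Icc 0 T, s ≤ t →
      F s - F t ≤ R t)
    (hd : ∀ᵐ x : ℝ, x ∈ Ioo 0 T → ∀ d, HasDerivAt F d x → d = q x)
    (hN : volume N = 0)
    (hreg : ∀ t ∈ Icc 0 T, t ∉ N → ∃ δ > 0, IntegrableOn ψ (Ioo (t - δ) (t + δ) ∩ Ioo 0 T))
    (hA : MeasurableSet A)
    (hψA : IntegrableOn ψ (A ∩ Ioo 0 T))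
    (hdens : ∀ t ∈ N, 0 < t → t ≤ T → ∃ c > 0, ∃ δ > 0, ∀ h ∈ Ioo 0 δ,
      c * h ≤ (volume (A ∩ Ioo (t - h) t)).toReal) :
    ∀ s t, 0 ≤ s → s ≤ t → t ≤ T → ∫ r in s..t, q r ≤ F t - F s := by
  -- the compensated function
  set H : ℝ → ℝ := fun t => F t - ∫ r in (0 : ℝ)..t, q r with hH
  have hqsub : ∀ x y, 0 ≤ x → x ≤ y → y ≤ T →
      (∫ r in (0 : ℝ)..y, q r) - (∫ r in (0 : ℝ)..x, q r) = ∫ r in x..y, q r := by
    intro x y hx hxy hy
    exact intervalIntegral.integral_interval_sub_left (sub_int hq le_rfl (hx.trans hxy) hy)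
      (sub_int hq le_rfl hx (hxy.trans hy))
  -- near the points outside `N`
  have hloc : ∀ x ∈ Icc 0 T, x ∉ N → ∃ δ > 0, ∀ s t, s ∈ Icc 0 T → t ∈ Icc 0 T → s ≤ t →
      x - δ ≤ s → t ≤ x + δ → H s ≤ H t := by
    intro x hx hxN
    obtain ⟨δ, hδ, hint⟩ := hreg x hx hxN
    refine ⟨δ / 2, by positivity, fun s t hs ht hst h3 h4 => ?_⟩
    rcases eq_or_lt_of_le hst with h0 | h0
    · rw [h0]
    have hψi : IntervalIntegrable ψ volume s t := by
      rw [intervalIntegrable_iff_integrableOn_Ioo_of_le hst]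
      refine hint.mono_set fun y hy => ⟨⟨by linarith [hy.1], by linarith [hy.2]⟩,
        hs.1.trans_lt hy.1, hy.2.trans_le ht.2⟩
    have hki : IntervalIntegrable k volume s t := sub_int hk hs.1 hst ht.2
    have hqi : IntervalIntegrable q volume s t := sub_int hq hs.1 hst ht.2
    have hb : ∀ y z, s ≤ y → y ≤ z → z ≤ t → F y - F z ≤ ∫ r in y..z, (k r + 4 * ψ r) := by
      intro y z hy hyz hz
      refine low_bound (a := s) (b := t) (good := good) (E := F) (ψ := ψ) (g := k) ?_ hψ0 hk0 hψi
        hki ?_ ?_ hy hyz hz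
      · filter_upwards [hgd] with r hr hr2
        exact hr ⟨hs.1.trans_lt hr2.1, hr2.2.trans_le ht.2⟩
      · intro r hr r' h5 h6 h7
        exact h1 r hr r' (hs.1.trans h5) h6 (h7.trans ht.2)
      · intro r hr
        obtain ⟨R, hR1, hR2⟩ := h2 r ⟨hs.1.trans hr.1, hr.2.trans ht.2⟩
        refine ⟨R, hR1.mono_left (nhdsWithin_mono _ (Icc_subset_Icc hs.1 ht.2)), ?_⟩
        intro r' hr' h5
        exact hR2 r' ⟨hs.1.trans hr'.1, hr'.2.trans ht.2⟩ h5
    have key := incr_ge (a := s) (b := t) hst (F := F) (k := fun r => k r + 4 * ψ r) (q := q)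
      (hki.add (hψi.const_mul 4)) hqi hb (by
        filter_upwards [hd] with r hr hr2
        exact hr ⟨hs.1.trans_lt hr2.1, hr2.2.trans_le ht.2⟩) s t le_rfl hst le_rfl
    have e1 := hqsub s t hs.1 hst ht.2
    simp only [hH]
    linarith
  -- the total density
  set K : ℝ → ℝ := fun t => 1 + k t + |q t| + (A ∩ Ioo 0 T).indicator ψ t with hK
  have hind0 : ∀ t, 0 ≤ (A ∩ Ioo 0 T).indicator ψ t := fun t =>
    indicator_nonneg (fun s _ => hψ0 s) t
  have hK1 : ∀ t, 1 ≤ K t := fun t => by
    have a1 := hk0 t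
    have a2 := abs_nonneg (q t)
    have a3 := hind0 t
    simp only [hK]
    linarith
  have hK0 : ∀ t, 0 ≤ K t := fun t => zero_le_one.trans (hK1 t)
  have hki : IntegrableOn k (Ioo 0 T) := by
    rw [← intervalIntegrable_iff_integrableOn_Ioo_of_le hT.le]; exact hk
  have hqi : IntegrableOn q (Ioo 0 T) := by
    rw [← intervalIntegrable_iff_integrableOn_Ioo_of_le hT.le]; exact hq
  have hAm : MeasurableSet (A ∩ Ioo 0 T) := hA.inter measurableSet_Ioo
  have hindi : IntegrableOn ((A ∩ Ioo 0 T).indicator ψ) (Ioo 0 T) :=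
    ((integrable_indicator_iff hAm).2 hψA).integrableOn
  have hKi : IntegrableOn K (Ioo 0 T) := by
    have h0 : IntegrableOn (fun _ : ℝ => (1 : ℝ)) (Ioo 0 T) := by
      refine integrableOn_const ?_
      rw [Real.volume_Ioo]
      exact ENNReal.ofReal_ne_top
    exact ((h0.add hki).add (Integrable.abs hqi)).add hindi
  -- the main estimate for starting points outside `N`
  have main : ∀ y₀ ∈ Icc 0 T, y₀ ∉ N → ∀ y ∈ Icc y₀ T, H y₀ ≤ H y := by
    intro y₀ hy₀ hy₀N y hy
    refine le_of_forall_pos_le_add fun ε hε => ?_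
    obtain ⟨W, hW0, hWi, hWε, hWN⟩ := exists_weight measurableSet_Ioo hKi hK0 hN hε
    have hWi' : IntervalIntegrable W volume 0 T := by
      rw [intervalIntegrable_iff_integrableOn_Ioo_of_le hT.le]; exact hWi
    set P : ℝ → Prop := fun z => H y₀ - H z ≤ ∫ r in y₀..z, W r with hP
    have hPy₀ : P y₀ := by simp [hP]
    -- adding
    have hadd : ∀ a z, y₀ ≤ a → a ≤ z → z ≤ T → P a → H a - H z ≤ (∫ r in a..z, W r) → P z := by
      intro a z h3 h4 h5 h6 h7
      have e1 := intervalIntegral.integral_add_adjacent_intervals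
        (sub_int hWi' hy₀.1 h3 (h4.trans h5)) (sub_int hWi' (hy₀.1.trans h3) h4 h5)
      simp only [hP] at h6 ⊢
      rw [← e1]
      linarith
    set S : Set ℝ := {x | x ∈ Icc y₀ T ∧ ∀ z ∈ Icc y₀ x, P z} with hS
    have hy₀S : y₀ ∈ S := ⟨⟨le_rfl, hy₀.2⟩, fun z hz => by
      rw [le_antisymm hz.2 hz.1]; exact hPy₀⟩
    have hSb : BddAbove S := ⟨T, fun x hx => hx.1.2⟩
    set x := sSup S with hx
    have hxy₀ : y₀ ≤ x := le_csSup hSb hy₀S
    have hxT : x ≤ T := csSup_le ⟨y₀, hy₀S⟩ fun z hz => hz.1.2
    have hbelow : ∀ z, y₀ ≤ z → z < x → P z := by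
      intro z hz hzx
      obtain ⟨z', hz', hzz'⟩ := exists_lt_of_lt_csSup ⟨y₀, hy₀S⟩ hzx
      exact hz'.2 z ⟨hz, hzz'.le⟩
    -- the step at `x`
    have hstep : ∃ δ > 0, ∀ z ∈ Icc x T, z ≤ x + δ → P z := by
      by_cases hxN : x ∈ N
      · -- the point is in `N`
        have hxne : y₀ < x := lt_of_le_of_ne hxy₀ fun h0 => hy₀N (h0 ▸ hxN)
        have hx0 : 0 < x := hy₀.1.trans_lt hxne
        obtain ⟨c, hc, δ, hδ, hdn⟩ := hdens x hxN hx0 hxT
        set δ₀ := min δ x with hδ₀
        have hδ₀0 : 0 < δ₀ := lt_min hδ hx0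
        have hsubI : Ioo (x - δ₀) x ⊆ Ioo 0 T := fun r hr =>
          ⟨by linarith [hr.1, min_le_right δ x], hr.2.trans_le hxT⟩
        obtain ⟨C, hC, htail⟩ := exists_tail (x := x) (good := good) hδ₀0 hc hK1
          (hKi.mono_set hsubI) (by
            filter_upwards [hgd] with r hr hr2
            exact hr (hsubI hr2.2))
          (fun h hh => hdn h ⟨hh.1, hh.2.trans_le (min_le_left _ _)⟩)
        obtain ⟨δ', hδ', hWC⟩ := hWN x hxN (1 + 2 * C)
        obtain ⟨a, ha1, ha2, ha3⟩ := htail (min (δ' / 2) (min δ₀ (x - y₀)))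
          (lt_min (by positivity) (lt_min hδ₀0 (by linarith)))
        have hax : a < x := ha1.2.2
        have hay₀ : y₀ < a := by
          have := ha1.2.1
          have h3 : min (δ' / 2) (min δ₀ (x - y₀)) ≤ x - y₀ :=
            (min_le_right _ _).trans (min_le_right _ _)
          linarith
        have haδ' : x - δ' < a := by
          have := ha1.2.1
          have h3 : min (δ' / 2) (min δ₀ (x - y₀)) ≤ δ' / 2 := min_le_left _ _
          linarith
        have ha0 : 0 < a := hy₀.1.trans_lt hay₀
        have haA : a ∈ A ∩ Ioo 0 T := ⟨ha1.1, ha0, hax.trans_le hxT⟩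
        refine ⟨min (x - a) (δ' / 2), lt_min (by linarith) (by positivity), fun z hz hz2 => ?_⟩
        have hz3 : z ≤ x + (x - a) := hz2.trans (by gcongr; exact min_le_left _ _)
        have hz4 : z ≤ x + δ' / 2 := hz2.trans (by gcongr; exact min_le_right _ _)
        have haz : a ≤ z := hax.le.trans hz.1
        refine hadd a z hay₀.le haz hz.2 (hbelow a hay₀.le hax) ?_
        have g1 := h1 a ha2 z ha0.le haz hz.2
        have e1 := hqsub a z ha0.le haz hz.2
        have kq : IntervalIntegrable k volume a z := sub_int hk ha0.le haz hz.2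
        have qq : IntervalIntegrable q volume a z := sub_int hq ha0.le haz hz.2
        have hKii : IntervalIntegrable K volume a z := by
          refine sub_int ?_ ha0.le haz hz.2
          rw [intervalIntegrable_iff_integrableOn_Ioo_of_le hT.le]; exact hKi
        have hWii : IntervalIntegrable W volume a z := sub_int hWi' ha0.le haz hz.2
        have e2 : ∫ r in a..z, (k r + q r) ≤ ∫ r in a..z, K r := by
          refine intervalIntegral.integral_mono_on haz (kq.add qq) hKii fun r _ => ?_
          have a2 := le_abs_self (q r)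
          have a3 := hind0 r
          simp only [hK]
          linarith
        rw [intervalIntegral.integral_add kq qq] at e2
        have hψK : ψ a ≤ K a := by
          have a1 := hk0 a
          have a2 := abs_nonneg (q a)
          simp only [hK, indicator_of_mem haA]
          linarith
        have e3 : (z - a) * ψ a ≤ 2 * C * ∫ r in a..z, K r := by
          have b1 : (z - a) * ψ a ≤ (2 * (x - a)) * ψ a :=
            mul_le_mul_of_nonneg_right (by linarith) (hψ0 a)
          have b2 : (x - a) * ψ a ≤ (x - a) * K a :=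
            mul_le_mul_of_nonneg_left hψK (by linarith)
          have b3 : ∫ r in a..x, K r ≤ ∫ r in a..z, K r :=
            int_mono_set hKii hK0 le_rfl le_rfl hax.le hz.1 le_rfl
          have b4 : C * ∫ r in a..x, K r ≤ C * ∫ r in a..z, K r := by gcongr
          calc (z - a) * ψ a ≤ 2 * ((x - a) * ψ a) := by linarith
            _ ≤ 2 * (C * ∫ r in a..z, K r) := by linarith
            _ = _ := by ring
        have e4 : ∫ r in a..z, (1 + 2 * C) * K r ≤ ∫ r in a..z, W r := by
          refine intervalIntegral.integral_mono_ae_restrict haz (hKii.const_mul _) hWii ?_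
          rw [EventuallyLE, ae_restrict_iff' measurableSet_Icc]
          have hTne : ∀ᵐ t : ℝ, t ≠ T := by simp [ae_iff, measure_singleton]
          filter_upwards [hWC, hTne] with r hr hrT hr2
          exact hr ⟨ha0.trans_le hr2.1, lt_of_le_of_ne (hr2.2.trans hz.2) hrT⟩
            ⟨by linarith [hr2.1], by linarith [hr2.2]⟩
        rw [intervalIntegral.integral_const_mul] at e4
        simp only [hH]
        have e5 : (1 + 2 * C) * ∫ r in a..z, K r = (∫ r in a..z, K r) + 2 * C * ∫ r in a..z, K r := by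
          ring
        linarith
      · obtain ⟨δ, hδ, hmono⟩ := hloc x ⟨hy₀.1.trans hxy₀, hxT⟩ hxN
        refine ⟨δ, hδ, fun z hz hz2 => ?_⟩
        set a := max y₀ (x - δ) with ha
        have hay₀ : y₀ ≤ a := le_max_left _ _
        have haδ : x - δ ≤ a := le_max_right _ _
        have hax : a ≤ x := max_le hxy₀ (by linarith)
        have hPa : P a := by
          rcases eq_or_lt_of_le hay₀ with h0 | h0
          · rw [← h0]; exact hPy₀
          · have h3 : a = x - δ := by
              rcases max_choice y₀ (x - δ) with h4 | h4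
              · exact absurd (ha.trans h4) h0.ne'
              · exact ha.trans h4
            exact hbelow a hay₀ (by linarith)
        refine hadd a z hay₀ (hax.trans hz.1) hz.2 hPa ?_
        have g1 := hmono a z ⟨hy₀.1.trans hay₀, hax.trans hxT⟩
          ⟨hy₀.1.trans (hxy₀.trans hz.1), hz.2⟩ (hax.trans hz.1) haδ hz2
        have g2 : 0 ≤ ∫ r in a..z, W r :=
          intervalIntegral.integral_nonneg (hax.trans hz.1) fun r _ => hW0 r
        linarith
    obtain ⟨δ, hδ, hPz⟩ := hstep
    have hall : ∀ z ∈ Icc y₀ (min (x + δ) T), P z := by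
      intro z hz
      rcases lt_or_ge z x with h3 | h3
      · exact hbelow z hz.1 h3
      · exact hPz z ⟨h3, hz.2.trans (min_le_right _ _)⟩ (hz.2.trans (min_le_left _ _))
    have hmem : min (x + δ) T ∈ S :=
      ⟨⟨le_min (by linarith) hy₀.2, min_le_right _ _⟩, hall⟩
    have hle : min (x + δ) T ≤ x := le_csSup hSb hmem
    have hTx : T ≤ x + δ := by
      by_contra h3
      push Not at h3
      rw [min_eq_left h3.le] at hle
      linarith
    have hPy : P y := hall y ⟨hy.1, by rw [min_eq_right hTx]; exact hy.2⟩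
    have h3 : ∫ r in y₀..y, W r ≤ ε := by
      refine le_trans ?_ hWε
      rw [intervalIntegral.integral_of_le hy.1, integral_Ioc_eq_integral_Ioo]
      refine setIntegral_mono_set hWi (Eventually.of_forall hW0) ?_
      refine LE.le.eventuallyLE ?_
      exact fun t ht => ⟨hy₀.1.trans_lt ht.1, ht.2.trans_le hy.2⟩
    simp only [hP] at hPy
    linarith
  -- all starting points
  intro s t hs hst ht
  have hHst : H s ≤ H t := by
    by_cases hsN : s ∈ N
    · rcases eq_or_lt_of_le hst with h0 | h0
      · rw [h0]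
      obtain ⟨R, hR1, hR2⟩ := h2 s ⟨hs, hst.trans ht⟩
      -- a sequence of points outside `N`
      have hpt : ∀ n : ℕ, ∃ r ∈ Ioo s (s + (t - s) / (n + 1)), r ∉ N := by
        intro n
        by_contra hcon
        push Not at hcon
        have h3 : volume (Ioo s (s + (t - s) / ((n : ℝ) + 1))) = 0 :=
          measure_mono_null hcon hN
        rw [Real.volume_Ioo, ENNReal.ofReal_eq_zero] at h3
        have : 0 < (t - s) / ((n : ℝ) + 1) := by
          have : 0 < t - s := by linarith
          positivity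
        linarith
      choose r hrI hrN using hpt
      have hrt : ∀ n, r n ≤ t := fun n => by
        have h3 : (t - s) / ((n : ℝ) + 1) ≤ t - s :=
          div_le_self (by linarith) (by linarith [(Nat.cast_nonneg n : (0 : ℝ) ≤ n)])
        linarith [(hrI n).2]
      have hrlim : Tendsto r atTop (𝓝 s) := by
        refine tendsto_of_tendsto_of_tendsto_of_le_of_le tendsto_const_nhds
          (h := fun n : ℕ => s + (t - s) / ((n : ℝ) + 1)) ?_ (fun n => (hrI n).1.le)
          (fun n => (hrI n).2.le)
        have h3 : Tendsto (fun n : ℕ => (t - s) / ((n : ℝ) + 1)) atTop (𝓝 0) := by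
          have := (tendsto_const_div_atTop_nhds_zero_nat (t - s)).comp (tendsto_add_atTop_nat 1)
          refine this.congr fun n => ?_
          simp
        have := h3.const_add s
        rwa [add_zero] at this
      have hrW : Tendsto r atTop (𝓝[Icc 0 T] s) :=
        tendsto_nhdsWithin_iff.2 ⟨hrlim, Eventually.of_forall fun n =>
          ⟨hs.trans (hrI n).1.le, (hrt n).trans ht⟩⟩
      have hq1 : Tendsto (fun n => ∫ z in s..(r n), q z) atTop (𝓝 0) := by
        have hc : ContinuousOn (fun x => ∫ z in s..x, q z) (uIcc s T) :=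
          intervalIntegral.continuousOn_primitive_interval'
            (sub_int hq hs (hst.trans ht) le_rfl) left_mem_uIcc
        have h5 := hc s left_mem_uIcc
        have h6 : Tendsto r atTop (𝓝[uIcc s T] s) := by
          refine tendsto_nhdsWithin_iff.2 ⟨hrlim, Eventually.of_forall fun n => ?_⟩
          rw [uIcc_of_le (hst.trans ht)]
          exact ⟨(hrI n).1.le, (hrt n).trans ht⟩
        have h7 := h5.tendsto.comp h6
        simpa [Function.comp_def] using h7
      have hbd : ∀ n, H s ≤ H t + (R (r n) + ∫ z in s..(r n), q z) := by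
        intro n
        have b1 := main (r n) ⟨hs.trans (hrI n).1.le, (hrt n).trans ht⟩ (hrN n) t ⟨hrt n, ht⟩
        have b2 := hR2 (r n) ⟨hs.trans (hrI n).1.le, (hrt n).trans ht⟩ (hrI n).1.le
        have b3 := hqsub s (r n) hs (hrI n).1.le ((hrt n).trans ht)
        simp only [hH] at b1 ⊢
        linarith
      have hlim : Tendsto (fun n => H t + (R (r n) + ∫ z in s..(r n), q z)) atTop
          (𝓝 (H t + (0 + 0))) := ((hR1.comp hrW).add hq1).const_add _
      have := ge_of_tendsto' hlim hbd
      linarith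
    · exact main s ⟨hs, hst.trans ht⟩ hsN t ⟨hst, ht⟩
  have e1 := hqsub s t hs hst ht
  simp only [hH] at hHst
  linarith

end Pool.Agent.E8helper97.EE
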