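import Pool.Agent.W795.ES.PubDef

/-!
Public definition: the maximal instantaneous growth rate of the energy of perturbations of a flow.
-/

set_option autoImplicit false

open MeasureTheory Set
open scoped InnerProductSpace

namespace Pool.Agent.E8helper97.EE

open H772R2.NS.Pub
open Pool.Agent.W795.ES (outer)

/-- `GrowthLe κ β G`: in the flow `u` with the gradient `G = ∇u` and at the viscosity `κ`, the
energy of a perturbation `φ` grows at most at the rate `β`, that is
`-∫_Ω φ·(φ·∇)u - κ ∫ |∇φ|² ≤ β ∫ |φ|²` for all divergence free test fields `φ`. (If `v` is the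
difference of `u` and another solution of the Navier-Stokes equations with viscosity `κ`, then
`d/dt ½‖v‖² = -∫_Ω v·(v·∇)u - κ ∫ |∇v|²`.) -/
def GrowthLe {Ω : Set R3} (κ β : ℝ) (G : L2 Ω Mat) : Prop :=
  ∀ φ : R3 → R3, IsTest Ω φ →
    -(∫ x in Ω, ⟪G.fn x, outer (φ x)⟫_ℝ) - κ * (∫ x, ‖jac φ x‖ ^ 2) ≤ β * ∫ x, ‖φ x‖ ^ 2

end Pool.Agent.E8helper97.EE
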