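import Pool.Agent.H772R2.NS.Build
import Pool.Agent.H772R2.NS.PubBridge
import Pool.Agent.E8helper97.EE.Dense
import Pool.Agent.E8helper97.EE.Pub

/-!
Monotonicity of the energy defect from one-sided bounds of the trilinear form at two times.
-/

set_option autoImplicit false

open MeasureTheory Set Filter Topology
open scoped InnerProductSpace ContDiff

namespace Pool.Agent.E8helper97.EE

open H772R2.NS

variable {Ω : Set E3}

theorem preW_le {p : L2V Ω × L2M Ω} (hp : p ∈ preW Ω) : p ∈ graphW Ω :=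
  (Submodule.le_topologicalClosure (preW Ω)) hp

/-- extension of an inequality from test pairs -/
theorem graphW_le (F : L2V Ω × L2M Ω → ℝ)
    (hF : ContinuousOn F (graphW Ω : Set (L2V Ω × L2M Ω))) (h0 : ∀ p ∈ preW Ω, F p ≤ 0)
    {p : L2V Ω × L2M Ω} (hp : p ∈ graphW Ω) : F p ≤ 0 := by
  have hp' : p ∈ closure (preW Ω : Set (L2V Ω × L2M Ω)) := by
    have := hp
    unfold graphW at this
    rwa [← SetLike.mem_coe, Submodule.topologicalClosure_coe] at this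
  obtain ⟨q, hq, hlim⟩ := mem_closure_iff_seq_limit.mp hp'
  have hqW : ∀ n, q n ∈ graphW Ω := fun n => preW_le (hq n)
  have h1 : Tendsto q atTop (𝓝[(graphW Ω : Set _)] p) :=
    tendsto_nhdsWithin_iff.mpr ⟨hlim, Eventually.of_forall hqW⟩
  have h2 : Tendsto (fun n => F (q n)) atTop (𝓝 (F p)) := (hF p hp).tendsto.comp h1
  exact le_of_tendsto h2 (Eventually.of_forall fun n => h0 _ (hq n))

/-- The norms of a test pair -/
theorem norm_test1 {φ : E3 → E3} (h : IsTest Ω φ) {q : L2V Ω × L2M Ω}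
    (h2 : q.1 =ᵐ[volume.restrict Ω] φ) : ‖q.1‖ ^ 2 = ∫ x, ∑ i, φ x i ^ 2 := by
  rw [← real_inner_self_eq_norm_sq, L2.inner_def]
  refine Eq.trans ?_ (setIntegral_eq_integral_of_forall_compl_eq_zero (s := Ω) fun x hx => ?_)
  · refine integral_congr_ae ?_
    filter_upwards [h2] with x a
    rw [a, inner_E3]
    exact Finset.sum_congr rfl fun i _ => by ring
  · have : φ x = 0 := image_eq_zero_of_notMem_tsupport fun hc => hx (h.supp hc)
    rw [this]
    simp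

theorem norm_test2 {φ : E3 → E3} (h : IsTest Ω φ) {q : L2V Ω × L2M Ω}
    (h3 : q.2 =ᵐ[volume.restrict Ω] jac φ) : ‖q.2‖ ^ 2 = ∫ x, ∑ i, ∑ j, jac φ x (i, j) ^ 2 := by
  rw [← real_inner_self_eq_norm_sq, L2.inner_def]
  refine Eq.trans ?_ (setIntegral_eq_integral_of_forall_compl_eq_zero (s := Ω) fun x hx => ?_)
  · refine integral_congr_ae ?_
    filter_upwards [h3] with x a
    rw [a, inner_M3]
    exact Finset.sum_congr rfl fun i _ => Finset.sum_congr rfl fun j _ => by ring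
  · have : jac φ x = 0 := image_eq_zero_of_notMem_tsupport fun hc =>
      hx (h.supp (tsupport_jac_subset hc))
    rw [this]
    simp

theorem form_cont (hΩ : MeasurableSet Ω) (G : L2M Ω) (a b : ℝ) :
    ContinuousOn (fun p : L2V Ω × L2M Ω => -⟪tensL p.1, G⟫_ℝ - a * ‖p.2‖ ^ 2 - b * ‖p.1‖ ^ 2)
      (graphW Ω : Set (L2V Ω × L2M Ω)) := by
  have h1 : ContinuousOn (fun p : L2V Ω × L2M Ω => ⟪tensL p.1, G⟫_ℝ)
      (graphW Ω : Set (L2V Ω × L2M Ω)) := (tensL_continuousOn hΩ).inner continuousOn_const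
  have h2 : Continuous fun p : L2V Ω × L2M Ω => a * ‖p.2‖ ^ 2 := by fun_prop
  have h3 : Continuous fun p : L2V Ω × L2M Ω => b * ‖p.1‖ ^ 2 := by fun_prop
  exact (h1.neg.sub h2.continuousOn).sub h3.continuousOn

section

variable {ν T M : ℝ} {u : ℝ → L2V Ω} {G : ℝ → L2M Ω} {f : ℝ → L2V Ω} {g : ℝ → ℝ}

theorem ii_of_on {T : ℝ} (hT : 0 < T) {b : ℝ → ℝ} (hb : IntegrableOn b (Ioo 0 T)) :
    IntervalIntegrable b volume 0 T := by
  rw [intervalIntegrable_iff_integrableOn_Ioc_of_le hT.le, IntegrableOn, restrict_Ioc_eq]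
  exact hb

/-- The step: lower bound of the increments of the kinetic energy starting from a good time. -/
theorem step_low (hΩ : IsOpen Ω) (hν : 0 ≤ ν) (hT : 0 < T) (h : IsWeakSolution Ω ν T u G f)
    (hM : ∀ t ∈ Icc 0 T, ‖u t‖ ≤ M) (hg : IntegrableOn g (Ioo 0 T)) {s b : ℝ} (hs : s ∈ Icc 0 T)
    (hsW : (u s, G s) ∈ graphW Ω)
    (hp : ∀ᵐ t : ℝ, t ∈ Ioo s T → -⟪tensL (u t), G s⟫_ℝ ≤ b + g t) {t : ℝ} (hst : s ≤ t)
    (ht : t ≤ T) :
    ‖u s‖ ^ 2 / 2 - ‖u t‖ ^ 2 / 2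
      ≤ (∫ τ in s..t, (g τ + ν / 2 * ‖G τ‖ ^ 2 + M * ‖f τ‖))
        + (t - s) * (b + ν / 2 * ‖G s‖ ^ 2) := by
  have S := h.toSol hΩ hν hT hM
  have hM0 : 0 ≤ M := S.M0
  have gi : IntervalIntegrable g volume s t := sub_int (ii_of_on hT hg) hs.1 hst ht
  have ψi : IntervalIntegrable (fun τ => ‖G τ‖ ^ 2) volume s t := by
    refine sub_int ?_ hs.1 hst ht
    rw [intervalIntegrable_iff_integrableOn_Ioc_of_le hT.le]
    exact S.G2
  have fi : IntervalIntegrable (fun τ => ‖f τ‖) volume s t := by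
    refine sub_int ?_ hs.1 hst ht
    rw [intervalIntegrable_iff_integrableOn_Ioc_of_le hT.le]
    exact S.fint.norm
  have e1 := h.weak_all hΩ hT hsW hs.1 hst ht
  simp only at e1
  have h0 : ‖u s‖ ^ 2 / 2 - ‖u t‖ ^ 2 / 2 ≤ -(⟪u t, u s⟫_ℝ - ⟪u s, u s⟫_ℝ) := by
    have h1 := norm_sub_sq_real (u t) (u s)
    have h2 : 0 ≤ ‖u t - u s‖ ^ 2 := by positivity
    rw [real_inner_self_eq_norm_sq]
    linarith
  refine h0.trans ?_
  rw [e1, ← intervalIntegral.integral_neg]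
  have hint : IntervalIntegrable (fun τ => g τ + ν / 2 * ‖G τ‖ ^ 2 + M * ‖f τ‖
      + (b + ν / 2 * ‖G s‖ ^ 2)) volume s t :=
    ((gi.add (ψi.const_mul _)).add (fi.const_mul _)).add intervalIntegrable_const
  have hG1 : Integrable G (volume.restrict (Ioo 0 T)) := h.gradL2.integrable (by norm_num)
  have hW : IntervalIntegrable (fun τ => -(⟪tensL (u τ), G s⟫_ℝ - ν * ⟪G τ, G s⟫_ℝ
      + ⟪f τ, u s⟫_ℝ)) volume s t := by
    refine sub_int ?_ hs.1 hst ht
    refine ii_of_on hT ?_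
    exact ((((h.m_int hΩ).inner_const (G s)).sub ((hG1.inner_const (G s)).const_mul ν)).add
      (h.force.inner_const (u s))).neg
  have h2 : ∫ τ in s..t, -(⟪tensL (u τ), G s⟫_ℝ - ν * ⟪G τ, G s⟫_ℝ + ⟪f τ, u s⟫_ℝ)
      ≤ ∫ τ in s..t, (g τ + ν / 2 * ‖G τ‖ ^ 2 + M * ‖f τ‖ + (b + ν / 2 * ‖G s‖ ^ 2)) := by
    refine intervalIntegral.integral_mono_ae_restrict hst hW hint ?_
    rw [EventuallyLE, ae_restrict_iff' measurableSet_Icc]
    have hTne : ∀ᵐ t : ℝ, t ≠ T := by simp [ae_iff, measure_singleton]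
    have hsne : ∀ᵐ t : ℝ, t ≠ s := by simp [ae_iff, measure_singleton]
    filter_upwards [hp, hTne, hsne] with τ hτ hτT hτs hτI
    have k1 := hτ ⟨lt_of_le_of_ne hτI.1 (Ne.symm hτs), lt_of_le_of_ne (hτI.2.trans ht) hτT⟩
    have k2 : ν * ⟪G τ, G s⟫_ℝ ≤ ν / 2 * (‖G τ‖ ^ 2 + ‖G s‖ ^ 2) := by
      have k3 := (le_abs_self _).trans (abs_real_inner_le_norm (G τ) (G s))
      have k4 : ‖G τ‖ * ‖G s‖ ≤ (‖G τ‖ ^ 2 + ‖G s‖ ^ 2) / 2 := by
        nlinarith [sq_nonneg (‖G τ‖ - ‖G s‖)]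
      calc ν * ⟪G τ, G s⟫_ℝ ≤ ν * ((‖G τ‖ ^ 2 + ‖G s‖ ^ 2) / 2) :=
            mul_le_mul_of_nonneg_left (k3.trans k4) hν
        _ = _ := by ring
    have k5 : -⟪f τ, u s⟫_ℝ ≤ M * ‖f τ‖ := by
      calc -⟪f τ, u s⟫_ℝ ≤ |⟪f τ, u s⟫_ℝ| := neg_le_abs _
        _ ≤ ‖f τ‖ * ‖u s‖ := abs_real_inner_le_norm _ _
        _ ≤ ‖f τ‖ * M := by gcongr; exact hM s hs
        _ = _ := mul_comm _ _
    linarith
  refine h2.trans (le_of_eq ?_)
  rw [intervalIntegral.integral_add ((gi.add (ψi.const_mul _)).add (fi.const_mul _))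
    intervalIntegrable_const, intervalIntegral.integral_const, smul_eq_mul]

end

section

variable {ν T : ℝ} {u : ℝ → L2V Ω} {G : ℝ → L2M Ω} {f : ℝ → L2V Ω} {g β : ℝ → ℝ}

theorem defect_incr {M : ℝ} {m : ℝ → L2M Ω} (S : Sol (graphW Ω) T M ν u G m f) {s t : ℝ}
    (hs : 0 ≤ s) (hst : s ≤ t) (ht : t ≤ T) :
    defect ν u G f t - defect ν u G f s
      = (∫ τ in s..t, pow ν u G f τ) - (‖u t‖ ^ 2 / 2 - ‖u s‖ ^ 2 / 2) := by
  have hpi : IntervalIntegrable (pow ν u G f) volume 0 T := by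
    rw [intervalIntegrable_iff_integrableOn_Ioc_of_le S.T0]
    exact S.pow_int
  have e1 := intervalIntegral.integral_interval_sub_left
    (sub_int hpi le_rfl (hs.trans hst) ht) (sub_int hpi le_rfl hs (hst.trans ht))
  unfold defect
  rw [← e1]
  ring

/-- the derivative of the kinetic energy -/
theorem kin_deriv {M : ℝ} {m : ℝ → L2M Ω} (S : Sol (graphW Ω) T M ν u G m f) :
    ∀ᵐ x : ℝ, x ∈ Ioo 0 T → ∀ d, HasDerivAt (fun t => ‖u t‖ ^ 2 / 2) d x → d = pow ν u G f x := by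
  have hpi : IntervalIntegrable (pow ν u G f) volume 0 T := by
    rw [intervalIntegrable_iff_integrableOn_Ioc_of_le S.T0]
    exact S.pow_int
  have hI : uIcc 0 T = Icc 0 T := uIcc_of_le S.T0
  filter_upwards [S.deriv_zero, hpi.ae_hasDerivAt_integral] with x h1 h2 hx d hd
  have hx' := Ioo_subset_Icc_self hx
  have h3 := h2 (by rwa [hI]) 0 (by rw [hI]; exact ⟨le_rfl, S.T0⟩)
  have h4 : HasDerivAt (defect ν u G f) (pow ν u G f x - d) x := by
    have h5 : HasDerivAt (fun t => ‖u 0‖ ^ 2 / 2 + ∫ τ in (0 : ℝ)..t, pow ν u G f τ)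
        (pow ν u G f x) x := h3.const_add _
    exact h5.sub hd
  have := h1 hx' _ h4
  linarith

/-- **Core theorem**: a one-sided bound of the trilinear form at all pairs of an
earlier and a later time makes the energy defect nonincreasing. -/
theorem defect_anti (hΩ : IsOpen Ω) (hν : 0 ≤ ν) (hT : 0 < T) (h : IsWeakSolution Ω ν T u G f)
    (hg : IntegrableOn g (Ioo 0 T)) (hβ : ∀ t, 0 ≤ β t)
    (hp : ∀ᵐ s ∂(volume.restrict (Ioo 0 T)), ∀ᵐ t ∂(volume.restrict (Ioo 0 T)), s < t →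
      -⟪tensL (u t), G s⟫_ℝ ≤ β s + g t)
    {N A : Set ℝ} (hN : volume N = 0) (hA : MeasurableSet A)
    (hβN : ∀ t ∈ Icc 0 T, t ∉ N → ∃ δ > 0, IntegrableOn β (Ioo (t - δ) (t + δ) ∩ Ioo 0 T))
    (hβA : IntegrableOn β (A ∩ Ioo 0 T))
    (hdens : ∀ t ∈ N, 0 < t → t ≤ T → ∃ c > 0, ∃ δ > 0, ∀ h ∈ Ioo 0 δ,
      c * h ≤ (volume (A ∩ Ioo (t - h) t)).toReal) :
    ∀ s t, 0 ≤ s → s ≤ t → t ≤ T → energyDefect ν u G f t ≤ energyDefect ν u G f s := by
  obtain ⟨M, hM⟩ := h.bdd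
  have S := h.toSol hΩ hν hT hM
  have hM0 : 0 ≤ M := S.M0
  set g' : ℝ → ℝ := fun t => |g t| with hg'
  have hgi' : IntegrableOn g' (Ioo 0 T) := Integrable.abs hg
  have hg0' : ∀ t, 0 ≤ g' t := fun t => abs_nonneg _
  have hψ2 : IntegrableOn (fun τ => ‖G τ‖ ^ 2) (Ioo 0 T) := by
    have := S.G2
    rwa [restrict_Ioc_eq] at this
  have hψi : IntervalIntegrable (fun τ => ‖G τ‖ ^ 2) volume 0 T := ii_of_on hT hψ2
  have hfi : IntervalIntegrable (fun τ => ‖f τ‖) volume 0 T := by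
    rw [intervalIntegrable_iff_integrableOn_Ioc_of_le hT.le]
    exact S.fint.norm
  have hp' : ∀ᵐ s : ℝ, s ∈ Ioo 0 T → ∀ᵐ t : ℝ, t ∈ Ioo s T →
      -⟪tensL (u t), G s⟫_ℝ ≤ β s + g' t := by
    rw [ae_restrict_iff' measurableSet_Ioo] at hp
    filter_upwards [hp] with s h1 hs
    have h2 := h1 hs
    rw [ae_restrict_iff' measurableSet_Ioo] at h2
    filter_upwards [h2] with t h3 ht
    have h4 := h3 ⟨hs.1.trans ht.1, ht.2⟩ ht.1
    have h6 := le_abs_self (g t)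
    simp only [hg']
    linarith
  have hpi : IntervalIntegrable (pow ν u G f) volume 0 T := by
    rw [intervalIntegrable_iff_integrableOn_Ioc_of_le hT.le]
    exact S.pow_int
  have key := incr_ge_dense (T := T) hT (F := fun t => ‖u t‖ ^ 2 / 2) (q := pow ν u G f)
    (k := fun τ => g' τ + ν / 2 * ‖G τ‖ ^ 2 + M * ‖f τ‖)
    (ψ := fun τ => β τ + ν / 2 * ‖G τ‖ ^ 2) (N := N) (A := A)
    (good := {s | s ∈ Icc 0 T ∧ (u s, G s) ∈ graphW Ω ∧
        ∀ᵐ t : ℝ, t ∈ Ioo s T → -⟪tensL (u t), G s⟫_ℝ ≤ β s + g' t})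
    (fun t => by have := hg0' t; positivity)
    (((ii_of_on hT hgi').add (hψi.const_mul _)).add (hfi.const_mul _)) hpi
    (fun t => by have := hβ t; positivity) (by
      have h1 : ∀ᵐ t : ℝ, t ∈ Ioo 0 T → (u t, G t) ∈ H1graph Ω := by
        have := h.grad
        rwa [ae_restrict_iff' measurableSet_Ioo] at this
      filter_upwards [h1, hp'] with t ht ht2 hI
      exact ⟨Ioo_subset_Icc_self hI, mem_graphW.mpr (ht hI), ht2 hI⟩)
    (fun s hs t _ hst ht => step_low hΩ hν hT h hM hgi' hs.1 hs.2.1 hs.2.2 hst ht) (by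
      intro s hs
      refine ⟨fun t => |⟪u t, u s⟫_ℝ - ‖u s‖ ^ 2|, ?_, ?_⟩
      · have h1 := (h.wcont (u s)) s hs
        have h2 : Tendsto (fun t => ⟪u t, u s⟫_ℝ - ‖u s‖ ^ 2) (𝓝[Icc 0 T] s) (𝓝 0) := by
          have := h1.tendsto.sub_const (‖u s‖ ^ 2)
          rw [real_inner_self_eq_norm_sq, sub_self] at this
          exact this
        have := h2.abs
        rwa [abs_zero] at this
      · intro t _ _
        have h1 := norm_sub_sq_real (u t) (u s)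
        have h2 : 0 ≤ ‖u t - u s‖ ^ 2 := by positivity
        have h3 := neg_le_abs (⟪u t, u s⟫_ℝ - ‖u s‖ ^ 2)
        simp only
        linarith) (kin_deriv S) hN (by
      intro t ht htN
      obtain ⟨δ, hδ, h1⟩ := hβN t ht htN
      exact ⟨δ, hδ, h1.add ((hψ2.mono_set inter_subset_right).const_mul _)⟩) hA
      (hβA.add ((hψ2.mono_set inter_subset_right).const_mul _)) hdens
  intro s t hs hst ht
  have h1 := key s t hs hst ht
  have h2 := defect_incr S hs hst ht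
  rw [energyDefect_eq hΩ hν hT h ⟨hs, hst.trans ht⟩, energyDefect_eq hΩ hν hT h ⟨hs.trans hst, ht⟩]
  linarith

end

/-- The form bound for all fields in `H¹_{0,σ}`. -/
theorem growth_all {Ω : Set Pub.R3} (hΩ : IsOpen Ω) {κ β : ℝ} {G : Pub.L2 Ω Pub.Mat}
    (hG : GrowthLe κ β G) {p : L2V (Ω : Set E3) × L2M (Ω : Set E3)}
    (hp : p ∈ graphW (Ω : Set E3)) :
    -⟪tensL p.1, (show L2M (Ω : Set E3) from G)⟫_ℝ ≤ κ * ‖p.2‖ ^ 2 + β * ‖p.1‖ ^ 2 := by
  have hm : MeasurableSet (show Set E3 from Ω) := IsOpen.measurableSet (α := E3) hΩ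
  have key := graphW_le (Ω := (Ω : Set E3))
    (fun p => -⟪tensL p.1, (show L2M (Ω : Set E3) from G)⟫_ℝ - κ * ‖p.2‖ ^ 2 - β * ‖p.1‖ ^ 2)
    (form_cont hm (show L2M (Ω : Set E3) from G) κ β) (fun q hq => ?_) hp
  · linarith
  · have hqW := preW_le hq
    obtain ⟨φ, h1, h2, h3⟩ := hq
    have h4 := hG φ ((Pub.isTest_iff (Ω := Ω) φ).mpr h1)
    have n1 := norm_test1 h1 h2
    have n2 := norm_test2 h1 h3
    have e1 : ∫ x, ‖(show Pub.R3 → Pub.R3 from φ) x‖ ^ 2 = ‖q.1‖ ^ 2 := by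
      rw [n1]
      refine integral_congr_ae (Eventually.of_forall fun x => ?_)
      exact norm_sq_E3 (φ x)
    have e2 : ∫ x, ‖Pub.jac (show Pub.R3 → Pub.R3 from φ) x‖ ^ 2 = ‖q.2‖ ^ 2 := by
      rw [n2]
      refine integral_congr_ae (Eventually.of_forall fun x => ?_)
      have h5 : (Pub.jac φ x : M3) = H772R2.NS.jac φ x := Pub.jac_eq φ x
      refine Eq.trans ?_ (norm_sq_M3 (H772R2.NS.jac φ x))
      exact congrArg (fun y : M3 => ‖y‖ ^ 2) h5
    have e3 : (∫ x in Ω, ⟪G.fn x, Pool.Agent.W795.ES.outer ((show Pub.R3 → Pub.R3 from φ) x)⟫_ℝ)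
        = ⟪tensL q.1, (show L2M (Ω : Set E3) from G)⟫_ℝ := by
      rw [real_inner_comm, L2.inner_def]
      refine integral_congr_ae (μ := (volume : Measure E3).restrict (Ω : Set E3)) ?_
      filter_upwards [tensL_coe hm hqW, h2] with x a b
      rw [a, b]
      have h6 : (Pool.Agent.W795.ES.outer (show Pub.R3 from φ x) : M3) = tens (φ x) := by
        unfold Pool.Agent.W795.ES.outer tens
        congr 1
        funext i
        exact congrArg₂ (· * ·) (Pub.inner_e i.1 (φ x)) (Pub.inner_e i.2 (φ x))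
      exact congrArg (fun y : M3 => ⟪(show L2M (Ω : Set E3) from G) x, y⟫_ℝ) h6
    rw [e1, e2, e3] at h4
    linarith

end Pool.Agent.E8helper97.EE
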